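import Pool.Agent.Lib_helper37.RD.Final
import Pool.Agent.Lib_helper30.KB.Box

set_option autoImplicit false

/-!
# The two-dimensional Pluennecke inequality for two rows with Kvarda's density of `kB`
-/

open Pointwise Finset
open Pool.Agent.Lib_helper37.RD
open Pool.Agent.Lib_helper30.KB (cnt)

namespace Pool.Agent.Results.MP_e68cd8_co.KvardaBasis

/-- The nonempty down-sets of the box `[0,N] x [0,M]`. -/
def DownSets (N M : ℕ) : Set (Finset (ℕ × ℕ)) :=
  {D | D.Nonempty ∧ (∀ x ∈ D, ∀ y, y ≤ x → y ∈ D) ∧ ∀ x ∈ D, x.1 ≤ N ∧ x.2 ≤ M}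

/-- Kvarda's density of `C` in the box `[0,N] x [0,M]`: the minimum of `|C ∩ D| / |D|` over all nonempty
down-sets `D` of the box. -/
noncomputable def kv (N M : ℕ) (C : Finset (ℕ × ℕ)) : ℝ :=
  ⨅ D : DownSets N M, ((C ∩ D.1).card : ℝ) / (D.1.card : ℝ)

theorem kv_nonneg (N M : ℕ) (C : Finset (ℕ × ℕ)) : 0 ≤ kv N M C := by
  unfold kv
  apply Real.iInf_nonneg
  intro D
  positivity

theorem kv_le (N M : ℕ) (C D : Finset (ℕ × ℕ)) (hD : D ∈ DownSets N M) :
    kv N M C * (D.card : ℝ) ≤ ((C ∩ D).card : ℝ) := by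
  have hpos : (0 : ℝ) < D.card := by exact_mod_cast Finset.card_pos.mpr hD.1
  rw [← le_div_iff₀ hpos]
  have hb : BddBelow (Set.range (fun D : DownSets N M => ((C ∩ D.1).card : ℝ) / (D.1.card : ℝ))) := by
    refine ⟨0, ?_⟩
    rintro _ ⟨D, rfl⟩
    positivity
  exact ciInf_le hb ⟨D, hD⟩

/-- The two-row staircase. -/
theorem stair (N k : ℕ) (B : Finset (ℕ × ℕ)) (u v : ℕ) (hv : v ≤ u) (hu : u ≤ N + 1) :
    kv N 1 (k • B) * ((u : ℝ) + (v : ℝ)) ≤ (cnt B k 0 u : ℝ) + (cnt B k 1 v : ℝ) := by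
  classical
  rcases Nat.eq_zero_or_pos u with h | h
  · have h1 : v = 0 := by omega
    rw [h, h1]
    simp only [Nat.cast_zero, add_zero, mul_zero]
    positivity
  · obtain ⟨D, hD⟩ : ∃ D : Finset (ℕ × ℕ), D = (range u) ×ˢ {0} ∪ (range v) ×ˢ {1} := ⟨_, rfl⟩
    have hmem : ∀ q : ℕ × ℕ, q ∈ D ↔ (q.1 < u ∧ q.2 = 0) ∨ (q.1 < v ∧ q.2 = 1) := by
      intro q
      rw [hD, Finset.mem_union, Finset.mem_product, Finset.mem_product, Finset.mem_range,
        Finset.mem_range, Finset.mem_singleton, Finset.mem_singleton]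
    have hdis : Disjoint ((range u) ×ˢ ({0} : Finset ℕ)) ((range v) ×ˢ ({1} : Finset ℕ)) := by
      rw [Finset.disjoint_left]
      intro q hq hq'
      rw [Finset.mem_product, Finset.mem_singleton] at hq hq'
      omega
    have hcard : D.card = u + v := by
      rw [hD, Finset.card_union_of_disjoint hdis, Finset.card_product, Finset.card_product,
        Finset.card_range, Finset.card_range, Finset.card_singleton, Finset.card_singleton,
        mul_one, mul_one]
    have h1 := kv_le N 1 (k • B) D ⟨⟨(0, 0), by rw [hmem]; exact Or.inl ⟨h, rfl⟩⟩, by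
      intro x hx y hy
      rw [hmem] at hx ⊢
      obtain ⟨hy1, hy2⟩ := Prod.le_def.mp hy
      omega, by
      intro x hx
      rw [hmem] at hx
      omega⟩
    rw [hcard] at h1
    push_cast at h1
    refine h1.trans ?_
    have h2 : (k • B) ∩ D ⊆ ((row (k • B) 0).filter (· < u)) ×ˢ {0} ∪
        ((row (k • B) 1).filter (· < v)) ×ˢ {1} := by
      intro q hq
      rw [Finset.mem_inter, hmem] at hq
      rw [Finset.mem_union, Finset.mem_product, Finset.mem_product, Finset.mem_filter,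
        Finset.mem_filter, mem_row, mem_row, Finset.mem_singleton, Finset.mem_singleton]
      obtain ⟨hq1, ⟨hq2, hq3⟩ | ⟨hq2, hq3⟩⟩ := hq
      · left
        refine ⟨⟨?_, hq2⟩, hq3⟩
        rw [← hq3]
        exact hq1
      · right
        refine ⟨⟨?_, hq2⟩, hq3⟩
        rw [← hq3]
        exact hq1
    have h3 := (Finset.card_le_card h2).trans (Finset.card_union_le _ _)
    rw [Finset.card_product, Finset.card_product, Finset.card_singleton, Finset.card_singleton,
      mul_one, mul_one] at h3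
    exact_mod_cast h3

/-- The inequality in one critical box, for a two-dimensional set `A`. -/
theorem critical (N n m k k' : ℕ) (α β : ℝ) (A B : Finset (ℕ × ℕ)) (hn : n ≤ N) (hm : m ≤ 1)
    (h0 : ((0, 0) : ℕ × ℕ) ∈ B) (hβ : 0 < β) (hα0 : 0 < α) (hk' : 0 < k') (hkk : k' < k)
    (hA : ∀ x ≤ N, ∀ y : ℕ, y ≤ 1 → α * (((x : ℝ) + 1) * ((y : ℝ) + 1)) ≤
      ((A.filter fun q => q.1 ≤ x ∧ q.2 ≤ y).card : ℝ))
    (hC : ∀ u v : ℕ, v ≤ u → u ≤ N + 1 → β * ((u : ℝ) + (v : ℝ)) ≤
      (cnt B k 0 u : ℝ) + (cnt B k 1 v : ℝ)) :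
    α ^ (1 - (k' : ℝ) / (k : ℝ)) * β ^ ((k' : ℝ) / (k : ℝ)) * (((n : ℝ) + 1) * ((m : ℝ) + 1)) ≤
      (((A + k' • B).filter fun q => q.1 ≤ n ∧ q.2 ≤ m).card : ℝ) := by
  classical
  obtain ⟨X, hX⟩ : ∃ X : ℕ → Finset ℕ, X = fun j => row (A.filter fun q => q.1 ≤ n) j := ⟨_, rfl⟩
  have hmem : ∀ j x, x ∈ X j ↔ (x, j) ∈ A ∧ x ≤ n := by
    intro j x
    rw [hX]
    show x ∈ row _ j ↔ _
    rw [mem_row, Finset.mem_filter]
  have hA0 : 0 ∈ X 0 := by
    rw [hmem]
    refine ⟨?_, Nat.zero_le _⟩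
    by_contra hc
    have h1 := hA 0 (Nat.zero_le _) 0 (Nat.zero_le _)
    have h2 : (A.filter fun q => q.1 ≤ 0 ∧ q.2 ≤ 0) = ∅ := by
      rw [Finset.filter_eq_empty_iff]
      rintro ⟨a, b⟩ hab ⟨h3, h4⟩
      have h5 : a = 0 := by simpa using h3
      have h6 : b = 0 := by simpa using h4
      rw [h5, h6] at hab
      exact hc hab
    rw [h2, Finset.card_empty] at h1
    norm_num at h1
    linarith
  have hXn : ∀ j, ∀ y ∈ X j, y ≤ n := fun j y hy => ((hmem j y).1 hy).2
  -- the masses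
  have hmass : ∀ i : ℕ, i ≤ 1 → ∀ z ≤ n, α * (((z : ℝ) + 1) * ((i : ℝ) + 1)) ≤
      ∑ j ∈ range (i + 1), (((X j).filter (· ≤ z)).card : ℝ) := by
    intro i hi z hz
    refine le_trans (hA z (by omega) i hi) ?_
    have h1 : (A.filter fun q => q.1 ≤ z ∧ q.2 ≤ i).card ≤
        ∑ j ∈ range (i + 1), ((X j).filter (· ≤ z)).card := by
      rw [← Finset.card_sigma]
      refine Finset.card_le_card_of_injOn (fun q => (⟨q.2, q.1⟩ : (_ : ℕ) × ℕ)) ?_ ?_
      · intro q hq
        rw [Finset.mem_coe, Finset.mem_filter] at hq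
        rw [Finset.mem_coe, Finset.mem_sigma, Finset.mem_range, Finset.mem_filter]
        refine ⟨?_, ?_, ?_⟩
        · show q.2 < i + 1
          omega
        · show q.1 ∈ X q.2
          rw [hmem]
          exact ⟨hq.1, by omega⟩
        · exact hq.2.1
      · intro p _ q _ hpq
        have h2 := (Sigma.mk.injEq _ _ _ _).mp hpq
        exact Prod.ext (eq_of_heq h2.2) h2.1
    exact_mod_cast h1
  -- the sumset contains the rows
  have hrows : ∑ j ∈ range (m + 1), ((T n B k' X j).card : ℝ) ≤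
      (((A + k' • B).filter fun q => q.1 ≤ n ∧ q.2 ≤ m).card : ℝ) := by
    have h2 : ∑ j ∈ range (m + 1), (T n B k' X j).card ≤
        ((A + k' • B).filter fun q => q.1 ≤ n ∧ q.2 ≤ m).card := by
      rw [← Finset.card_sigma]
      refine Finset.card_le_card_of_injOn (fun p => (p.2, p.1)) ?_ ?_
      · rintro ⟨j, x⟩ hp
        rw [Finset.mem_coe, Finset.mem_sigma, Finset.mem_range] at hp
        obtain ⟨hj, hx⟩ := hp
        dsimp only at hj hx
        obtain ⟨⟨l, hl, hxl⟩, hxn⟩ := mem_T.1 hx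
        obtain ⟨a, ha, b, hb', hab⟩ := Finset.mem_add.1 hxl
        rw [hmem] at ha
        rw [mem_row] at hb'
        rw [Finset.mem_coe, Finset.mem_filter]
        refine ⟨?_, hxn, by show j ≤ m; omega⟩
        have h3 := Finset.add_mem_add ha.1 hb'
        have h4 : ((a, l) : ℕ × ℕ) + (b, j - l) = (x, j) := by
          rw [Prod.mk_add_mk, hab]
          congr 1
          omega
        rw [h4] at h3
        exact h3
      · rintro ⟨j, x⟩ _ ⟨j', x'⟩ _ h3
        have h4 : x = x' := congrArg Prod.fst h3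
        have h5 : j = j' := congrArg Prod.snd h3
        rw [h4, h5]
    exact_mod_cast h2
  refine le_trans ?_ hrows
  rcases Nat.eq_zero_or_pos m with hm0 | hm0
  · -- one row
    subst hm0
    have hb := Pool.Agent.Lib_helper37.RD.box n 0 k k' α β X B hXn h0 hA0 hα0.le hβ.le hk'
      (Nat.zero_le _) (by omega) (by
        intro i hi z hz
        refine le_trans (le_of_eq ?_) (hmass i (by omega) z hz)
        ring) (by
        intro r hr z hz
        have hr0 : r = 0 := by omega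
        subst hr0
        have h1 := hC (z + 1) 0 (Nat.zero_le _) (by omega)
        rw [Pool.Agent.Lib_helper30.KB.cnt_zero] at h1
        push_cast at h1
        have h2 : (row (k • B) 0).filter (· ≤ z) = (row (k • B) 0).filter (· < z + 1) := by
          refine Finset.filter_congr fun x _ => ?_
          omega
        rw [h2]
        have h3 : (cnt B k 0 (z + 1) : ℝ) = ((((row (k • B) 0).filter (· < z + 1)).card : ℕ) : ℝ) := rfl
        rw [← h3]
        linarith)
    refine le_trans (le_of_eq ?_) hb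
    push_cast
    ring
  · have hm1 : m = 1 := by omega
    subst hm1
    have hb := Pool.Agent.Lib_helper30.KB.box n k k' α β X B hXn h0 hA0 hα0 hβ hk' hkk (by
        intro z hz
        have h1 := hmass 0 (Nat.zero_le _) z hz
        rw [zero_add, Finset.sum_range_one] at h1
        push_cast at h1
        linarith) (by
        intro z hz
        have h1 := hmass 1 le_rfl z hz
        rw [Finset.sum_range_succ, Finset.sum_range_one] at h1
        push_cast at h1
        linarith) (fun u v huv hu => hC u v huv (by omega))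
    rw [Finset.sum_range_succ, Finset.sum_range_one]
    refine le_trans (le_of_eq ?_) hb
    push_cast
    ring

/-- A finite down-closed set of natural numbers is an initial segment. -/
theorem eq_range (S : Finset ℕ) (h : ∀ x ∈ S, ∀ y ≤ x, y ∈ S) : S = range S.card := by
  refine Finset.eq_of_subset_of_card_le ?_ (by rw [Finset.card_range])
  intro x hx
  rw [Finset.mem_range]
  have h1 : range (x + 1) ⊆ S := by
    intro y hy
    rw [Finset.mem_range] at hy
    exact h x hx y (by omega)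
  have h2 := Finset.card_le_card h1
  rw [Finset.card_range] at h2
  omega

/-- The mass of a set which contains the whole row 0. -/
theorem full_row (N : ℕ) (C D : Finset (ℕ × ℕ)) (hD : D ∈ DownSets N 1) (hC : ∀ x ≤ N, (x, 0) ∈ C)
    (σ : ℝ) (hσ0 : 0 ≤ σ)
    (hσ : ∀ x ≤ N, ∀ y : ℕ, y ≤ 1 → σ * (((x : ℝ) + 1) * ((y : ℝ) + 1)) ≤
      ((C.filter fun q => q.1 ≤ x ∧ q.2 ≤ y).card : ℝ)) :
    σ * (D.card : ℝ) ≤ ((C ∩ D).card : ℝ) := by
  classical
  obtain ⟨-, hdown, hbox⟩ := hD
  have hσ1 : σ ≤ 1 := by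
    have h1 := hσ 0 (Nat.zero_le _) 0 (Nat.zero_le 1)
    have h2 : (C.filter fun q => q.1 ≤ 0 ∧ q.2 ≤ 0).card ≤ 1 := by
      rw [Finset.card_le_one]
      intro a ha b hb
      rw [Finset.mem_filter] at ha hb
      ext
      · omega
      · omega
    have h3 : ((C.filter fun q => q.1 ≤ 0 ∧ q.2 ≤ 0).card : ℝ) ≤ 1 := by exact_mod_cast h2
    simp only [Nat.cast_zero, zero_add, mul_one] at h1
    linarith
  obtain ⟨S0, hS0⟩ : ∃ S0, S0 = row D 0 := ⟨_, rfl⟩
  obtain ⟨S1, hS1⟩ : ∃ S1, S1 = row D 1 := ⟨_, rfl⟩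
  have h1 : S1 = range S1.card := by
    refine eq_range S1 ?_
    intro x hx y hy
    rw [hS1, mem_row] at hx ⊢
    exact hdown _ hx _ (Prod.mk_le_mk.2 ⟨hy, le_rfl⟩)
  have hsub : S1 ⊆ S0 := by
    intro x hx
    rw [hS1, mem_row] at hx
    rw [hS0, mem_row]
    exact hdown _ hx _ (Prod.mk_le_mk.2 ⟨le_rfl, Nat.zero_le 1⟩)
  have hv : S1.card ≤ S0.card := Finset.card_le_card hsub
  have hD2 : D = S0 ×ˢ {0} ∪ S1 ×ˢ {1} := by
    ext q
    rw [Finset.mem_union, Finset.mem_product, Finset.mem_product, Finset.mem_singleton,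
      Finset.mem_singleton, hS0, hS1, mem_row, mem_row]
    constructor
    · intro hq
      have h2 := (hbox q hq).2
      rcases Nat.le_one_iff_eq_zero_or_eq_one.1 h2 with h3 | h3
      · exact Or.inl ⟨by rw [← h3]; exact hq, h3⟩
      · exact Or.inr ⟨by rw [← h3]; exact hq, h3⟩
    · rintro (⟨h2, h3⟩ | ⟨h2, h3⟩)
      · rw [← h3] at h2; exact h2
      · rw [← h3] at h2; exact h2
  have hdis : Disjoint (S0 ×ˢ ({0} : Finset ℕ)) (S1 ×ˢ ({1} : Finset ℕ)) := by
    rw [Finset.disjoint_left]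
    intro q hq hq'
    rw [Finset.mem_product, Finset.mem_singleton] at hq hq'
    omega
  have hcard : D.card = S0.card + S1.card := by
    rw [hD2, Finset.card_union_of_disjoint hdis, Finset.card_product, Finset.card_product,
      Finset.card_singleton, Finset.card_singleton, mul_one, mul_one]
  -- the part of `C` in the row 1
  obtain ⟨T1, hT1⟩ : ∃ T1, T1 = S1.filter fun x => (x, 1) ∈ C := ⟨_, rfl⟩
  have hC1 : S0.card + T1.card ≤ (C ∩ D).card := by
    have h2 : S0 ×ˢ ({0} : Finset ℕ) ∪ T1 ×ˢ ({1} : Finset ℕ) ⊆ C ∩ D := by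
      intro q hq
      rw [Finset.mem_union, Finset.mem_product, Finset.mem_product, Finset.mem_singleton,
        Finset.mem_singleton] at hq
      rw [Finset.mem_inter]
      rcases hq with ⟨h3, h4⟩ | ⟨h3, h4⟩
      · rw [hS0, mem_row, ← h4] at h3
        refine ⟨?_, h3⟩
        have h5 := hC q.1 (hbox q h3).1
        rw [← h4] at h5
        exact h5
      · rw [hT1, Finset.mem_filter, hS1, mem_row, ← h4] at h3
        exact ⟨h3.2, h3.1⟩
    have h3 : Disjoint (S0 ×ˢ ({0} : Finset ℕ)) (T1 ×ˢ ({1} : Finset ℕ)) := by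
      rw [Finset.disjoint_left]
      intro q hq hq'
      rw [Finset.mem_product, Finset.mem_singleton] at hq hq'
      omega
    have h4 := Finset.card_le_card h2
    rw [Finset.card_union_of_disjoint h3, Finset.card_product, Finset.card_product,
      Finset.card_singleton, Finset.card_singleton, mul_one, mul_one] at h4
    exact h4
  have hkey : σ * (2 * (S1.card : ℝ)) ≤ (S1.card : ℝ) + (T1.card : ℝ) := by
    rcases Nat.eq_zero_or_pos S1.card with h2 | h2
    · have h3 : (S1.card : ℝ) = 0 := by exact_mod_cast h2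
      rw [h3, mul_zero, mul_zero, zero_add]
      exact Nat.cast_nonneg _
    · obtain ⟨v, hv1⟩ : ∃ v, S1.card = v + 1 := ⟨S1.card - 1, by omega⟩
      have hvN : v ≤ N := by
        have h3 : v ∈ S1 := by
          rw [h1, Finset.mem_range]
          omega
        rw [hS1, mem_row] at h3
        exact (hbox _ h3).1
      have h3 := hσ v hvN 1 le_rfl
      have h4 : (C.filter fun q => q.1 ≤ v ∧ q.2 ≤ 1) ⊆ S1 ×ˢ ({0} : Finset ℕ) ∪
          T1 ×ˢ ({1} : Finset ℕ) := by
        intro q hq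
        rw [Finset.mem_filter] at hq
        rw [Finset.mem_union, Finset.mem_product, Finset.mem_product, Finset.mem_singleton,
          Finset.mem_singleton]
        have h5 : q.1 ∈ S1 := by
          rw [h1, Finset.mem_range]
          omega
        rcases Nat.le_one_iff_eq_zero_or_eq_one.1 hq.2.2 with h6 | h6
        · exact Or.inl ⟨h5, h6⟩
        · right
          refine ⟨?_, h6⟩
          rw [hT1, Finset.mem_filter]
          refine ⟨h5, ?_⟩
          rw [← h6]
          exact hq.1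
      have h5 := (Finset.card_le_card h4).trans (Finset.card_union_le _ _)
      rw [Finset.card_product, Finset.card_product, Finset.card_singleton, Finset.card_singleton,
        mul_one, mul_one] at h5
      have h6 : ((C.filter fun q => q.1 ≤ v ∧ q.2 ≤ 1).card : ℝ) ≤ (S1.card : ℝ) + (T1.card : ℝ) := by
        exact_mod_cast h5
      refine le_trans (le_of_eq ?_) (h3.trans h6)
      rw [hv1]
      push_cast
      ring
  have hC2 : (S0.card : ℝ) + (T1.card : ℝ) ≤ ((C ∩ D).card : ℝ) := by exact_mod_cast hC1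
  have hv2 : (S1.card : ℝ) ≤ (S0.card : ℝ) := by exact_mod_cast hv
  have h2 := mul_le_mul_of_nonneg_right hσ1 (sub_nonneg.2 hv2)
  rw [hcard]
  push_cast
  linarith

/-- `sigma(A)^(1 - k'/k) * kv(kB)^(k'/k) <= sigma(A + k'B)` in the boxes `[0,N] x [0,1]`; one has
`kv(kB) = sigma(kB)` when `kB` contains the row `[0,N] x {0}`. -/
theorem result :
  ∀ N : ℕ, 0 < N →
  ∀ σ : Finset (ℕ × ℕ) → ℝ,
    (∀ C : Finset (ℕ × ℕ), σ C = ⨅ p : Fin (N + 1) × Fin (1 + 1),
        (((C.filter (fun q => q.1 ≤ (p.1 : ℕ) ∧ q.2 ≤ (p.2 : ℕ))).card : ℝ) /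
          ((((p.1 : ℕ) : ℝ) + 1) * (((p.2 : ℕ) : ℝ) + 1)))) →
  ∀ A B : Finset (ℕ × ℕ),
    (∀ q ∈ A, q.1 ≤ N ∧ q.2 ≤ 1) →
    (∀ q ∈ B, q.1 ≤ N ∧ q.2 ≤ 1) →
    ((0, 0) : ℕ × ℕ) ∈ B →
  ∀ k k' : ℕ, 0 < k' → k' < k →
    σ A ^ (1 - (k' : ℝ) / (k : ℝ)) * kv N 1 (k • B) ^ ((k' : ℝ) / (k : ℝ)) ≤ σ (A + k' • B) ∧
      ((∀ x ≤ N, ((x, 0) : ℕ × ℕ) ∈ k • B) → kv N 1 (k • B) = σ (k • B)) := by
  classical
  intro N _ σ hσ A B _ _ h0 k k' hk' hkk
  have hk'R : (0 : ℝ) < (k' : ℝ) := by exact_mod_cast hk'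
  have hkR : (0 : ℝ) < (k : ℝ) := by
    have : 0 < k := by omega
    exact_mod_cast this
  have hkkR : (k' : ℝ) < (k : ℝ) := by exact_mod_cast hkk
  have hσ0 : ∀ C : Finset (ℕ × ℕ), 0 ≤ σ C := by
    intro C
    rw [hσ C]
    apply Real.iInf_nonneg
    intro p
    positivity
  have hσle : ∀ (C : Finset (ℕ × ℕ)), ∀ x ≤ N, ∀ y : ℕ, y ≤ 1 → σ C * (((x : ℝ) + 1) * ((y : ℝ) + 1)) ≤
      ((C.filter fun q => q.1 ≤ x ∧ q.2 ≤ y).card : ℝ) := by
    intro C x hx y hy
    have h1 := ciInf_le (Set.finite_range (fun p : Fin (N + 1) × Fin (1 + 1) =>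
        (((C.filter (fun q => q.1 ≤ (p.1 : ℕ) ∧ q.2 ≤ (p.2 : ℕ))).card : ℝ) /
          ((((p.1 : ℕ) : ℝ) + 1) * (((p.2 : ℕ) : ℝ) + 1))))).bddBelow
      ((⟨x, by omega⟩, ⟨y, by omega⟩) : Fin (N + 1) × Fin (1 + 1))
    rw [← hσ C] at h1
    exact (le_div_iff₀ (by positivity)).1 h1
  constructor
  · rcases (hσ0 A).eq_or_lt with hA0 | hA0
    · have h1 : (k' : ℝ) / (k : ℝ) < 1 := (div_lt_one hkR).2 hkkR
      rw [← hA0, Real.zero_rpow (by linarith), zero_mul]
      exact hσ0 _
    · rcases (kv_nonneg N 1 (k • B)).eq_or_lt with hB0 | hB0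
      · rw [← hB0, Real.zero_rpow (by positivity), mul_zero]
        exact hσ0 _
      · rw [hσ (A + k' • B)]
        apply le_ciInf
        rintro ⟨⟨n, hn⟩, ⟨m, hm⟩⟩
        dsimp only
        rw [le_div_iff₀ (by positivity)]
        exact critical N n m k k' (σ A) (kv N 1 (k • B)) A B (by omega) (by omega) h0 hB0 hA0 hk' hkk
          (hσle A) (stair N k B)
  · intro hfull
    apply le_antisymm
    · rw [hσ (k • B)]
      apply le_ciInf
      rintro ⟨⟨n, hn⟩, ⟨m, hm⟩⟩
      dsimp only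
      have hD : (range (n + 1) ×ˢ range (m + 1)) ∈ DownSets N 1 := by
        refine ⟨⟨(0, 0), by simp⟩, ?_, ?_⟩
        · intro x hx y hy
          obtain ⟨hy1, hy2⟩ := Prod.le_def.mp hy
          rw [Finset.mem_product, Finset.mem_range, Finset.mem_range] at hx ⊢
          omega
        · intro x hx
          rw [Finset.mem_product, Finset.mem_range, Finset.mem_range] at hx
          omega
      have h1 := kv_le N 1 (k • B) _ hD
      have h2 : (k • B) ∩ (range (n + 1) ×ˢ range (m + 1)) =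
          (k • B).filter (fun q => q.1 ≤ n ∧ q.2 ≤ m) := by
        ext q
        rw [Finset.mem_inter, Finset.mem_product, Finset.mem_range, Finset.mem_range, Finset.mem_filter]
        constructor
        · rintro ⟨h3, h4, h5⟩
          exact ⟨h3, by omega, by omega⟩
        · rintro ⟨h3, h4, h5⟩
          exact ⟨h3, by omega, by omega⟩
      rw [h2, Finset.card_product, Finset.card_range, Finset.card_range] at h1
      rw [le_div_iff₀ (by positivity)]
      push_cast at h1
      exact h1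
    · have hne : (range 1 ×ˢ range 1 : Finset (ℕ × ℕ)) ∈ DownSets N 1 := by
        refine ⟨⟨(0, 0), by simp⟩, ?_, ?_⟩
        · intro x hx y hy
          obtain ⟨hy1, hy2⟩ := Prod.le_def.mp hy
          rw [Finset.mem_product, Finset.mem_range, Finset.mem_range] at hx ⊢
          omega
        · intro x hx
          rw [Finset.mem_product, Finset.mem_range, Finset.mem_range] at hx
          omega
      haveI : Nonempty (DownSets N 1) := ⟨⟨_, hne⟩⟩
      unfold kv
      apply le_ciInf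
      rintro ⟨D, hD⟩
      have hpos : (0 : ℝ) < D.card := by exact_mod_cast Finset.card_pos.mpr hD.1
      show σ (k • B) ≤ (((k • B) ∩ D).card : ℝ) / (D.card : ℝ)
      rw [le_div_iff₀ hpos]
      exact full_row N (k • B) D hD hfull (σ (k • B)) (hσ0 _) (hσle _)

end Pool.Agent.Results.MP_e68cd8_co.KvardaBasis
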