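import Pool.Agent.Lib_helper16.SD.Kvarda

set_option autoImplicit false

/-!
# The two-dimensional Pluennecke inequality with Kvarda's density of `A`
-/

open Pointwise Finset
open Pool.Agent.Lib_helper16.SD

namespace Pool.Agent.Results.MP_e68cd8_co.KvardaDensity

/-- The nonempty down-sets of the box `[0,N] x [0,M]`. -/
def DownSets (N M : ℕ) : Set (Finset (ℕ × ℕ)) :=
  {D | D.Nonempty ∧ (∀ x ∈ D, ∀ y, y ≤ x → y ∈ D) ∧ ∀ x ∈ D, x.1 ≤ N ∧ x.2 ≤ M}

/-- Kvarda's density of `A` in the box `[0,N] x [0,M]`: the minimum of `|A ∩ D| / |D|` over all nonempty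
down-sets `D` of the box. -/
noncomputable def kv (N M : ℕ) (A : Finset (ℕ × ℕ)) : ℝ :=
  ⨅ D : DownSets N M, ((A ∩ D.1).card : ℝ) / (D.1.card : ℝ)

lemma kv_nonneg (N M : ℕ) (A : Finset (ℕ × ℕ)) : 0 ≤ kv N M A := by
  unfold kv
  apply Real.iInf_nonneg
  intro D
  positivity

lemma kv_le (N M : ℕ) (A D : Finset (ℕ × ℕ)) (hD : D ∈ DownSets N M) :
    kv N M A * (D.card : ℝ) ≤ ((A ∩ D).card : ℝ) := by
  have hpos : (0 : ℝ) < D.card := by exact_mod_cast Finset.card_pos.mpr hD.1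
  rw [← le_div_iff₀ hpos]
  have hb : BddBelow (Set.range (fun D : DownSets N M => ((A ∩ D.1).card : ℝ) / (D.1.card : ℝ))) := by
    refine ⟨0, ?_⟩
    rintro _ ⟨D, rfl⟩
    positivity
  exact ciInf_le hb ⟨D, hD⟩

/-- `kv(A)^(1 - k'/k) * sigma(kB)^(k'/k) <= sigma(A + k'B)`; for a down-set `A` one has `kv(A) = sigma(A)`. -/
theorem result :
  ∀ N M : ℕ, 0 < N → 0 < M →
  ∀ σ : Finset (ℕ × ℕ) → ℝ,
    (∀ C : Finset (ℕ × ℕ), σ C = ⨅ p : Fin (N + 1) × Fin (M + 1),
        (((C.filter (fun q => q.1 ≤ (p.1 : ℕ) ∧ q.2 ≤ (p.2 : ℕ))).card : ℝ) /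
          ((((p.1 : ℕ) : ℝ) + 1) * (((p.2 : ℕ) : ℝ) + 1)))) →
  ∀ A B : Finset (ℕ × ℕ),
    (∀ q ∈ A, q.1 ≤ N ∧ q.2 ≤ M) →
    (∀ q ∈ B, q.1 ≤ N ∧ q.2 ≤ M) →
    ((0, 0) : ℕ × ℕ) ∈ B →
  ∀ k k' : ℕ, 0 < k' → k' < k →
    kv N M A ^ (1 - (k' : ℝ) / (k : ℝ)) * σ (k • B) ^ ((k' : ℝ) / (k : ℝ)) ≤ σ (A + k' • B) ∧
      ((∀ x ∈ A, ∀ y, y ≤ x → y ∈ A) → kv N M A = σ A) := by
  intro N M _ _ σ hσ A B hAb _ _ k k' hk' hk
  have hfil : ∀ (C : Finset (ℕ × ℕ)) (n m : ℕ), (C.filter (fun q => q.1 ≤ n ∧ q.2 ≤ m)) = C.filter (bx (n + 1) (m + 1)) := by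
    intro C n m
    apply Finset.filter_congr
    intro q _
    unfold bx
    omega
  have hle : ∀ (C : Finset (ℕ × ℕ)) (n m : ℕ), n ≤ N → m ≤ M →
      σ C * ((((n + 1 : ℕ) : ℝ)) * (((m + 1 : ℕ) : ℝ))) ≤ ((C.filter (bx (n + 1) (m + 1))).card : ℝ) := by
    intro C n m hn hm
    have hpos : (0 : ℝ) < (((n + 1 : ℕ) : ℝ)) * (((m + 1 : ℕ) : ℝ)) := by positivity
    have h1 := ciInf_le (Set.finite_range (fun p : Fin (N + 1) × Fin (M + 1) =>
        (((C.filter (fun q => q.1 ≤ (p.1 : ℕ) ∧ q.2 ≤ (p.2 : ℕ))).card : ℝ) /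
          ((((p.1 : ℕ) : ℝ) + 1) * (((p.2 : ℕ) : ℝ) + 1))))).bddBelow
      ((⟨n, by omega⟩, ⟨m, by omega⟩) : Fin (N + 1) × Fin (M + 1))
    rw [← hσ C] at h1
    dsimp only at h1
    rw [hfil] at h1
    rw [← le_div_iff₀ hpos]
    push_cast
    exact h1
  have hσ0 : ∀ C : Finset (ℕ × ℕ), 0 ≤ σ C := by
    intro C
    rw [hσ C]
    apply Real.iInf_nonneg
    intro p
    positivity
  have hgen : ∀ (C : Finset (ℕ × ℕ)) (n m : ℕ), n ≤ N + 1 → m ≤ M + 1 →
      σ C * ((n : ℝ) * (m : ℝ)) ≤ ((C.filter (bx n m)).card : ℝ) := by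
    intro C n m hn hm
    rcases Nat.eq_zero_or_pos n with rfl | hn0
    · simp
    rcases Nat.eq_zero_or_pos m with rfl | hm0
    · simp
    obtain ⟨n', rfl⟩ : ∃ n', n = n' + 1 := ⟨n - 1, by omega⟩
    obtain ⟨m', rfl⟩ : ∃ m', m = m' + 1 := ⟨m - 1, by omega⟩
    exact hle C n' m' (by omega) (by omega)
  constructor
  · -- the critical box
    rw [hσ (A + k' • B)]
    apply le_ciInf
    rintro ⟨⟨n, hn⟩, ⟨m, hm⟩⟩
    dsimp only
    rw [hfil]
    set A' := A.filter (bx (n + 1) (m + 1)) with hA'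
    have hmain := box_kvarda (n + 1) (m + 1) A' B (fun x hx => (Finset.mem_filter.mp hx).2)
      (kv N M A) (σ (k • B)) (kv_nonneg N M A) (hσ0 _) k k' hk' hk (by
        intro X hX
        by_cases hne : (dnS (n + 1) (m + 1) X).Nonempty
        · have hD : dnS (n + 1) (m + 1) X ∈ DownSets N M := by
            refine ⟨hne, ?_, ?_⟩
            · intro x hx y hy
              rw [mem_dnS] at hx ⊢
              obtain ⟨hy1, hy2⟩ := Prod.le_def.mp hy
              refine ⟨by omega, ?_⟩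
              rintro ⟨z, hz, hz1, hz2⟩
              exact hx.2 ⟨z, hz, by omega, by omega⟩
            · intro x hx
              rw [mem_dnS] at hx
              omega
          refine (kv_le N M A _ hD).trans ?_
          have : A ∩ dnS (n + 1) (m + 1) X ⊆ A' \ X := by
            intro x hx
            rw [Finset.mem_inter, mem_dnS] at hx
            rw [Finset.mem_sdiff, hA', Finset.mem_filter]
            exact ⟨⟨hx.1, hx.2.1⟩, fun hxX => hx.2.2 ⟨x, hxX, le_refl _, le_refl _⟩⟩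
          exact_mod_cast Finset.card_le_card this
        · rw [Finset.not_nonempty_iff_eq_empty.mp hne]
          simp) (by
        intro p' hp' q' hq'
        exact hgen (k • B) p' q' (by omega) (by omega))
    have hsub : ((A' + k' • B).filter (bx (n + 1) (m + 1))).card ≤ ((A + k' • B).filter (bx (n + 1) (m + 1))).card := by
      apply Finset.card_le_card
      apply Finset.filter_subset_filter
      exact Finset.add_subset_add_right (Finset.filter_subset _ _)
    have hsubR : (((A' + k' • B).filter (bx (n + 1) (m + 1))).card : ℝ) ≤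
        (((A + k' • B).filter (bx (n + 1) (m + 1))).card : ℝ) := by exact_mod_cast hsub
    rw [le_div_iff₀ (by positivity)]
    push_cast at hmain
    exact hmain.trans hsubR
  · intro hdown
    apply le_antisymm
    · rw [hσ A]
      apply le_ciInf
      rintro ⟨⟨n, hn⟩, ⟨m, hm⟩⟩
      dsimp only
      rw [hfil]
      have hD : (range (n + 1) ×ˢ range (m + 1)) ∈ DownSets N M := by
        refine ⟨⟨(0, 0), by simp⟩, ?_, ?_⟩
        · intro x hx y hy
          obtain ⟨hy1, hy2⟩ := Prod.le_def.mp hy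
          rw [Finset.mem_product, Finset.mem_range, Finset.mem_range] at hx ⊢
          omega
        · intro x hx
          rw [Finset.mem_product, Finset.mem_range, Finset.mem_range] at hx
          omega
      have h1 := kv_le N M A _ hD
      have h2 : A ∩ (range (n + 1) ×ˢ range (m + 1)) = A.filter (bx (n + 1) (m + 1)) := by
        ext x
        rw [Finset.mem_inter, Finset.mem_product, Finset.mem_range, Finset.mem_range, Finset.mem_filter]
        rfl
      rw [h2, Finset.card_product, Finset.card_range, Finset.card_range] at h1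
      rw [le_div_iff₀ (by positivity)]
      push_cast at h1
      exact h1
    · have hne : Nonempty (DownSets N M) := ⟨⟨{(0, 0)}, by
        refine ⟨⟨(0, 0), by simp⟩, ?_, ?_⟩
        · intro x hx y hy
          rw [Finset.mem_singleton] at hx
          subst hx
          obtain ⟨hy1, hy2⟩ := Prod.le_def.mp hy
          simp only at hy1 hy2
          rw [Finset.mem_singleton]
          ext
          · simp only; omega
          · simp only; omega
        · intro x hx
          rw [Finset.mem_singleton] at hx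
          subst hx
          simp⟩⟩
      unfold kv
      apply le_ciInf
      rintro ⟨D, hDne, hDd, hDb⟩
      dsimp only
      have hpos : (0 : ℝ) < D.card := by exact_mod_cast Finset.card_pos.mpr hDne
      rw [le_div_iff₀ hpos]
      have h1 := down_corr (N + 1) (M + 1) A D hdown hDd (by
        intro x hx
        have := hDb x hx
        unfold bx
        omega)
      have h2 := hle A N M (le_refl _) (le_refl _)
      have h1R : ((A.filter (bx (N + 1) (M + 1))).card : ℝ) * (D.card : ℝ) ≤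
          ((A ∩ D).card : ℝ) * (((N + 1 : ℕ) : ℝ) * ((M + 1 : ℕ) : ℝ)) := by exact_mod_cast h1
      have hpos2 : (0 : ℝ) < ((N + 1 : ℕ) : ℝ) * ((M + 1 : ℕ) : ℝ) := by positivity
      have h3 : (σ A * (D.card : ℝ)) * (((N + 1 : ℕ) : ℝ) * ((M + 1 : ℕ) : ℝ)) ≤
          ((A ∩ D).card : ℝ) * (((N + 1 : ℕ) : ℝ) * ((M + 1 : ℕ) : ℝ)) := by
        calc (σ A * (D.card : ℝ)) * (((N + 1 : ℕ) : ℝ) * ((M + 1 : ℕ) : ℝ))
            = (σ A * (((N + 1 : ℕ) : ℝ) * ((M + 1 : ℕ) : ℝ))) * (D.card : ℝ) := by ring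
          _ ≤ ((A.filter (bx (N + 1) (M + 1))).card : ℝ) * (D.card : ℝ) :=
              mul_le_mul_of_nonneg_right h2 hpos.le
          _ ≤ _ := h1R
      exact le_of_mul_le_mul_right h3 hpos2

end Pool.Agent.Results.MP_e68cd8_co.KvardaDensity
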