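import Pool.Agent.Lib_helper37.RD.Final

set_option autoImplicit false

/-!
# The two-dimensional Pluennecke inequality when the rows of `kB` are dense
-/

open Pointwise Finset
open Pool.Agent.Lib_helper37.RD

namespace Pool.Agent.Results.MP_e68cd8_co.RowDensity

/-- The inequality in one critical box, for a two-dimensional set `A`. -/
theorem critical (N M n m k k' : ℕ) (α β : ℝ) (A B : Finset (ℕ × ℕ)) (hn : n ≤ N) (hmM : m ≤ M)
    (h0 : ((0, 0) : ℕ × ℕ) ∈ B) (hα : 0 ≤ α) (hβ : 0 ≤ β) (hα0 : 0 < α)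
    (hk' : 0 < k') (hM : M ≤ k') (hMk : M + k' ≤ k)
    (hA : ∀ x ≤ N, ∀ y ≤ M, α * (((x : ℝ) + 1) * ((y : ℝ) + 1)) ≤
      ((A.filter fun q => q.1 ≤ x ∧ q.2 ≤ y).card : ℝ))
    (hC : ∀ x ≤ N, ∀ y ≤ M, β * ((x : ℝ) + 1) ≤
      (((k • B).filter fun q => q.1 ≤ x ∧ q.2 = y).card : ℝ)) :
    α ^ (1 - (k' : ℝ) / (k : ℝ)) * β ^ ((k' : ℝ) / (k : ℝ)) * (((n : ℝ) + 1) * ((m : ℝ) + 1)) ≤
      (((A + k' • B).filter fun q => q.1 ≤ n ∧ q.2 ≤ m).card : ℝ) := by
  classical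
  obtain ⟨X, hX⟩ : ∃ X : ℕ → Finset ℕ, X = fun j => row (A.filter fun q => q.1 ≤ n) j := ⟨_, rfl⟩
  have hmem : ∀ j x, x ∈ X j ↔ (x, j) ∈ A ∧ x ≤ n := by
    intro j x
    rw [hX]
    show x ∈ row _ j ↔ _
    rw [mem_row, Finset.mem_filter]
  have hA0 : 0 ∈ X 0 := by
    rw [hmem]
    refine ⟨?_, Nat.zero_le _⟩
    by_contra hc
    have h1 := hA 0 (Nat.zero_le _) 0 (Nat.zero_le _)
    have h2 : (A.filter fun q => q.1 ≤ 0 ∧ q.2 ≤ 0) = ∅ := by
      rw [Finset.filter_eq_empty_iff]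
      rintro ⟨a, b⟩ hab ⟨h3, h4⟩
      have h5 : a = 0 := by simpa using h3
      have h6 : b = 0 := by simpa using h4
      rw [h5, h6] at hab
      exact hc hab
    rw [h2, Finset.card_empty] at h1
    norm_num at h1
    linarith
  have hb := box n m k k' α β X B (fun j y hy => ((hmem j y).1 hy).2) h0 hA0 hα hβ hk'
    (by omega) (by omega) (by
      intro i hi z hz
      refine le_trans (le_of_eq ?_) (le_trans (hA z (by omega) i (by omega)) ?_)
      · ring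
      · have h1 : (A.filter fun q => q.1 ≤ z ∧ q.2 ≤ i).card ≤
            ∑ j ∈ range (i + 1), ((X j).filter (· ≤ z)).card := by
          rw [← Finset.card_sigma]
          refine Finset.card_le_card_of_injOn (fun q => (⟨q.2, q.1⟩ : (_ : ℕ) × ℕ)) ?_ ?_
          · intro q hq
            rw [Finset.mem_coe, Finset.mem_filter] at hq
            rw [Finset.mem_coe, Finset.mem_sigma, Finset.mem_range, Finset.mem_filter]
            refine ⟨?_, ?_, ?_⟩
            · show q.2 < i + 1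
              omega
            · show q.1 ∈ X q.2
              rw [hmem]
              exact ⟨hq.1, by omega⟩
            · exact hq.2.1
          · intro p _ q _ hpq
            have h2 := (Sigma.mk.injEq _ _ _ _).mp hpq
            exact Prod.ext (eq_of_heq h2.2) h2.1
        exact_mod_cast h1) (by
      intro r hr z hz
      refine le_trans (hC z (by omega) r (by omega)) ?_
      have h1 : ((k • B).filter fun q => q.1 ≤ z ∧ q.2 = r).card ≤
          ((row (k • B) r).filter (· ≤ z)).card := by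
        refine Finset.card_le_card_of_injOn Prod.fst ?_ ?_
        · intro q hq
          rw [Finset.mem_coe, Finset.mem_filter] at hq
          rw [Finset.mem_coe, Finset.mem_filter, mem_row]
          refine ⟨?_, hq.2.1⟩
          rw [← hq.2.2]
          exact hq.1
        · intro p hp q hq hpq
          rw [Finset.mem_coe, Finset.mem_filter] at hp hq
          exact Prod.ext hpq (hp.2.2.trans hq.2.2.symm)
      exact_mod_cast h1)
  have h2 : ∑ j ∈ range (m + 1), (T n B k' X j).card ≤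
      ((A + k' • B).filter fun q => q.1 ≤ n ∧ q.2 ≤ m).card := by
    rw [← Finset.card_sigma]
    refine Finset.card_le_card_of_injOn (fun p => (p.2, p.1)) ?_ ?_
    · rintro ⟨j, x⟩ hp
      rw [Finset.mem_coe, Finset.mem_sigma, Finset.mem_range] at hp
      obtain ⟨hj, hx⟩ := hp
      dsimp only at hj hx
      obtain ⟨⟨l, hl, hxl⟩, hxn⟩ := mem_T.1 hx
      obtain ⟨a, ha, b, hb', hab⟩ := Finset.mem_add.1 hxl
      rw [hmem] at ha
      rw [mem_row] at hb'
      rw [Finset.mem_coe, Finset.mem_filter]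
      refine ⟨?_, hxn, by show j ≤ m; omega⟩
      have h3 := Finset.add_mem_add ha.1 hb'
      have h4 : ((a, l) : ℕ × ℕ) + (b, j - l) = (x, j) := by
        rw [Prod.mk_add_mk, hab]
        congr 1
        omega
      rw [h4] at h3
      exact h3
    · rintro ⟨j, x⟩ _ ⟨j', x'⟩ _ h3
      have h4 : x = x' := congrArg Prod.fst h3
      have h5 : j = j' := congrArg Prod.snd h3
      rw [h4, h5]
  have h3 : ∑ j ∈ range (m + 1), ((T n B k' X j).card : ℝ) ≤
      (((A + k' • B).filter fun q => q.1 ≤ n ∧ q.2 ≤ m).card : ℝ) := by exact_mod_cast h2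
  refine le_trans (le_of_eq ?_) (hb.trans h3)
  ring

/-- If `M <= k'`, `M + k' <= k` and every row `y <= M` of `kB` has at least `beta * (x + 1)` elements
in `[0,x]` for all `x <= N`, then `sigma(A + k'B) >= sigma(A)^(1 - k'/k) * beta^(k'/k)`. -/
theorem result :
  ∀ N M : ℕ, 0 < N → 0 < M →
  ∀ σ : Finset (ℕ × ℕ) → ℝ,
    (∀ C : Finset (ℕ × ℕ), σ C = ⨅ p : Fin (N + 1) × Fin (M + 1),
        (((C.filter (fun q => q.1 ≤ (p.1 : ℕ) ∧ q.2 ≤ (p.2 : ℕ))).card : ℝ) /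
          ((((p.1 : ℕ) : ℝ) + 1) * (((p.2 : ℕ) : ℝ) + 1)))) →
  ∀ A B : Finset (ℕ × ℕ),
    (∀ q ∈ A, q.1 ≤ N ∧ q.2 ≤ M) →
    (∀ q ∈ B, q.1 ≤ N ∧ q.2 ≤ M) →
    ((0, 0) : ℕ × ℕ) ∈ B →
  ∀ k k' : ℕ, 0 < k' → k' < k → M ≤ k' → M + k' ≤ k →
  ∀ β : ℝ, 0 ≤ β →
    (∀ x ≤ N, ∀ y ≤ M, β * ((x : ℝ) + 1) ≤
      (((k • B).filter (fun q => q.1 ≤ x ∧ q.2 = y)).card : ℝ)) →
    σ A ^ (1 - (k' : ℝ) / (k : ℝ)) * β ^ ((k' : ℝ) / (k : ℝ)) ≤ σ (A + k' • B) := by
  intro N M _ _ σ hσ A B _ _ h0 k k' hk' hkk hM hMk β hβ hC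
  have hk'R : (0 : ℝ) < (k' : ℝ) := by exact_mod_cast hk'
  have hkR : (0 : ℝ) < (k : ℝ) := by
    have : 0 < k := by omega
    exact_mod_cast this
  have hkkR : (k' : ℝ) < (k : ℝ) := by exact_mod_cast hkk
  have hσ0 : ∀ C : Finset (ℕ × ℕ), 0 ≤ σ C := by
    intro C
    rw [hσ C]
    apply Real.iInf_nonneg
    intro p
    positivity
  have hσle : ∀ (C : Finset (ℕ × ℕ)), ∀ x ≤ N, ∀ y ≤ M, σ C * (((x : ℝ) + 1) * ((y : ℝ) + 1)) ≤
      ((C.filter fun q => q.1 ≤ x ∧ q.2 ≤ y).card : ℝ) := by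
    intro C x hx y hy
    have h1 := ciInf_le (Set.finite_range (fun p : Fin (N + 1) × Fin (M + 1) =>
        (((C.filter (fun q => q.1 ≤ (p.1 : ℕ) ∧ q.2 ≤ (p.2 : ℕ))).card : ℝ) /
          ((((p.1 : ℕ) : ℝ) + 1) * (((p.2 : ℕ) : ℝ) + 1))))).bddBelow
      ((⟨x, by omega⟩, ⟨y, by omega⟩) : Fin (N + 1) × Fin (M + 1))
    rw [← hσ C] at h1
    exact (le_div_iff₀ (by positivity)).1 h1
  rcases (hσ0 A).eq_or_lt with hA0 | hA0
  · have h1 : (k' : ℝ) / (k : ℝ) < 1 := (div_lt_one hkR).2 hkkR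
    rw [← hA0, Real.zero_rpow (by linarith), zero_mul]
    exact hσ0 _
  · rw [hσ (A + k' • B)]
    apply le_ciInf
    rintro ⟨⟨n, hn⟩, ⟨m, hm⟩⟩
    dsimp only
    rw [le_div_iff₀ (by positivity)]
    exact critical N M n m k k' (σ A) β A B (by omega) (by omega) h0 hA0.le hβ hA0 hk' hM hMk
      (hσle A) hC

end Pool.Agent.Results.MP_e68cd8_co.RowDensity
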