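import Pool.Agent.Lib_helper16.SD.Geom

set_option autoImplicit false

/-!
# The two-dimensional Pluennecke inequality up to an absolute constant

For a box with `M + 1` rows the inequality holds with the factor
`K M t = (M+1)^{-1} * sum_{l=0}^{M} (1/(l+1) + ... + 1/(M+1))^t`, which is at least `Gamma (1 + t)`.
-/

open Pointwise Finset
open Pool.Agent.Lib_helper16.SD

namespace Pool.Agent.Results.MP_e68cd8_co.UpToConstant

/-- `K M t` is the average over `l = 0, ..., M` of `(1/(l+1) + 1/(l+2) + ... + 1/(M+1)) ^ t`. -/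
noncomputable def K (M : ℕ) (t : ℝ) : ℝ :=
  (1 / ((M : ℝ) + 1)) * ∑ l ∈ range (M + 1), (∑ j ∈ Ico l (M + 1), (1 : ℝ) / ((j : ℝ) + 1)) ^ t

lemma K_eq (M : ℕ) (t : ℝ) : K M t = CC (M + 1) t := by
  unfold K CC hh
  push_cast
  rfl

/-- In a box with `M + 1` rows: `K M (k'/k) * sigma(A)^(1 - k'/k) * sigma(kB)^(k'/k) <= sigma(A + k'B)`, and
`Gamma (1 + k'/k) <= K M (k'/k)`. -/
theorem result :
  ∀ N M : ℕ, 0 < N → 0 < M →
  ∀ σ : Finset (ℕ × ℕ) → ℝ,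
    (∀ C : Finset (ℕ × ℕ), σ C = ⨅ p : Fin (N + 1) × Fin (M + 1),
        (((C.filter (fun q => q.1 ≤ (p.1 : ℕ) ∧ q.2 ≤ (p.2 : ℕ))).card : ℝ) /
          ((((p.1 : ℕ) : ℝ) + 1) * (((p.2 : ℕ) : ℝ) + 1)))) →
  ∀ A B : Finset (ℕ × ℕ),
    (∀ q ∈ A, q.1 ≤ N ∧ q.2 ≤ M) →
    (∀ q ∈ B, q.1 ≤ N ∧ q.2 ≤ M) →
    ((0, 0) : ℕ × ℕ) ∈ B →
  ∀ k k' : ℕ, 0 < k' → k' < k →
    K M ((k' : ℝ) / (k : ℝ)) *
        (σ A ^ (1 - (k' : ℝ) / (k : ℝ)) * σ (k • B) ^ ((k' : ℝ) / (k : ℝ))) ≤ σ (A + k' • B) ∧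
      Real.Gamma (1 + (k' : ℝ) / (k : ℝ)) ≤ K M ((k' : ℝ) / (k : ℝ)) := by
  intro N M _ _ σ hσ A B _ _ _ k k' hk' hk
  have hk'R : (0 : ℝ) < k' := by exact_mod_cast hk'
  have hkR : (0 : ℝ) < k := by exact_mod_cast (lt_trans hk' hk)
  have hkk : (k' : ℝ) < k := by exact_mod_cast hk
  have ht0 : 0 < (k' : ℝ) / k := div_pos hk'R hkR
  have ht1 : (k' : ℝ) / k < 1 := (div_lt_one hkR).mpr hkk
  refine ⟨?_, by rw [K_eq]; exact gamma_le_CC (M + 1) (by omega) _ ht0 ht1⟩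
  -- the density bounds in every smaller box
  have hfil : ∀ (C : Finset (ℕ × ℕ)) (n m : ℕ), (C.filter (fun q => q.1 ≤ n ∧ q.2 ≤ m)) = C.filter (bx (n + 1) (m + 1)) := by
    intro C n m
    apply Finset.filter_congr
    intro q _
    unfold bx
    omega
  have hle : ∀ (C : Finset (ℕ × ℕ)) (n m : ℕ), n ≤ N → m ≤ M →
      σ C * ((((n + 1 : ℕ) : ℝ)) * (((m + 1 : ℕ) : ℝ))) ≤ ((C.filter (bx (n + 1) (m + 1))).card : ℝ) := by
    intro C n m hn hm
    have hpos : (0 : ℝ) < (((n + 1 : ℕ) : ℝ)) * (((m + 1 : ℕ) : ℝ)) := by positivity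
    have h1 := ciInf_le (Set.finite_range (fun p : Fin (N + 1) × Fin (M + 1) =>
        (((C.filter (fun q => q.1 ≤ (p.1 : ℕ) ∧ q.2 ≤ (p.2 : ℕ))).card : ℝ) /
          ((((p.1 : ℕ) : ℝ) + 1) * (((p.2 : ℕ) : ℝ) + 1))))).bddBelow
      ((⟨n, by omega⟩, ⟨m, by omega⟩) : Fin (N + 1) × Fin (M + 1))
    rw [← hσ C] at h1
    dsimp only at h1
    rw [hfil] at h1
    rw [← le_div_iff₀ hpos]
    push_cast
    exact h1
  have hσ0 : ∀ C : Finset (ℕ × ℕ), 0 ≤ σ C := by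
    intro C
    rw [hσ C]
    apply Real.iInf_nonneg
    intro p
    positivity
  have hgen : ∀ (C : Finset (ℕ × ℕ)) (n m : ℕ), n ≤ N + 1 → m ≤ M + 1 →
      σ C * ((n : ℝ) * (m : ℝ)) ≤ ((C.filter (bx n m)).card : ℝ) := by
    intro C n m hn hm
    rcases Nat.eq_zero_or_pos n with rfl | hn0
    · simp
    rcases Nat.eq_zero_or_pos m with rfl | hm0
    · simp
    obtain ⟨n', rfl⟩ : ∃ n', n = n' + 1 := ⟨n - 1, by omega⟩
    obtain ⟨m', rfl⟩ : ∃ m', m = m' + 1 := ⟨m - 1, by omega⟩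
    exact hle C n' m' (by omega) (by omega)
  -- the critical box
  rw [hσ (A + k' • B)]
  apply le_ciInf
  rintro ⟨⟨n, hn⟩, ⟨m, hm⟩⟩
  dsimp only
  rw [hfil]
  set A' := A.filter (bx (n + 1) (m + 1)) with hA'
  have hmain := box_main (n + 1) (m + 1) (by omega) A' B (fun x hx => (Finset.mem_filter.mp hx).2)
    (σ A) (σ (k • B)) (hσ0 _) (hσ0 _) k k' hk' hk (by
      intro p' hp' q' hq'
      have h1 := hgen A p' q' (by omega) (by omega)
      have h2 : A'.filter (bx p' q') = A.filter (bx p' q') := by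
        rw [hA', Finset.filter_filter]
        apply Finset.filter_congr
        intro x _
        unfold bx
        omega
      rw [h2]
      exact h1) (by
      intro p' hp' q' hq'
      exact hgen (k • B) p' q' (by omega) (by omega))
  have hsub : ((A' + k' • B).filter (bx (n + 1) (m + 1))).card ≤ ((A + k' • B).filter (bx (n + 1) (m + 1))).card := by
    apply Finset.card_le_card
    apply Finset.filter_subset_filter
    exact Finset.add_subset_add_right (Finset.filter_subset _ _)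
  have hsubR : (((A' + k' • B).filter (bx (n + 1) (m + 1))).card : ℝ) ≤
      (((A + k' • B).filter (bx (n + 1) (m + 1))).card : ℝ) := by exact_mod_cast hsub
  set t := (k' : ℝ) / k with ht
  have hCC := CC_anti (m + 1) (M + 1) (by omega) (by omega) t ht0.le ht1.le
  rw [← K_eq] at hCC
  have hX0 : 0 ≤ σ A ^ (1 - t) * σ (k • B) ^ t :=
    mul_nonneg (Real.rpow_nonneg (hσ0 _) _) (Real.rpow_nonneg (hσ0 _) _)
  rw [le_div_iff₀ (by positivity)]
  have hn1 : (0 : ℝ) < (n : ℝ) + 1 := by positivity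
  have hm1 : (0 : ℝ) < (m : ℝ) + 1 := by positivity
  have h5 : CC (m + 1) t * (((n : ℝ) + 1) * ((m : ℝ) + 1)) =
      ((n + 1 : ℕ) : ℝ) * ∑ l ∈ range (m + 1), (hh (m + 1) l) ^ t := by
    unfold CC
    push_cast
    field_simp
  calc K M t * (σ A ^ (1 - t) * σ (k • B) ^ t) * (((n : ℝ) + 1) * ((m : ℝ) + 1))
      ≤ CC (m + 1) t * (σ A ^ (1 - t) * σ (k • B) ^ t) * (((n : ℝ) + 1) * ((m : ℝ) + 1)) := by
        apply mul_le_mul_of_nonneg_right _ (by positivity)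
        exact mul_le_mul_of_nonneg_right hCC hX0
    _ = (σ A ^ (1 - t) * σ (k • B) ^ t) * (CC (m + 1) t * (((n : ℝ) + 1) * ((m : ℝ) + 1))) := by ring
    _ = (σ A ^ (1 - t) * σ (k • B) ^ t) * (((n + 1 : ℕ) : ℝ) * ∑ l ∈ range (m + 1), (hh (m + 1) l) ^ t) := by
        rw [h5]
    _ ≤ _ := hmain.trans hsubR

end Pool.Agent.Results.MP_e68cd8_co.UpToConstant
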